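import Pool.Agent.H6.FIB.TargetsG

/-!
# Groups of small order are solvable (O60)
-/

open scoped Classical ComplexConjugate

namespace Pool.Agent.H70.FIB

open FI AMc AMt

theorem o60_30 : Squarefree 30 := by
  intro x hx
  have h1 : x * x ≤ 30 := Nat.le_of_dvd (by norm_num) hx
  have h2 : x ≤ 5 := by nlinarith
  interval_cases x
  · omega
  · exact isUnit_one
  · omega
  · omega
  · omega
  · omega

/-- groups of squarefree order -/
theorem o60_sq (G : Type) [Group G] [Finite G] (h : Nat.card G ∣ 30) :
    Group.IsSolvable G := by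
  have := IsZGroup.of_squarefree (o60_30.squarefree_of_dvd h)
  infer_instance

/-- the action on the cosets of a `p`-subgroup -/
theorem o60_act (G : Type) [Group G] [Finite G] (p n : ℕ) (hp : p.Prime)
    (hd : p ^ n ∣ Nat.card G)
    (hs : ∀ K : Subgroup G, p ^ n * Nat.card (G ⧸ K) = Nat.card G →
      Group.IsSolvable (Equiv.Perm (G ⧸ K))) : Group.IsSolvable G := by
  have : Fact p.Prime := ⟨hp⟩
  obtain ⟨K, hK⟩ := Sylow.exists_subgroup_card_pow_prime p hd
  have h1 : IsPGroup p K := IsPGroup.of_card hK
  have h2 : Group.IsNilpotent K := h1.isNilpotent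
  have h3 : Group.IsSolvable K := inferInstance
  have h4 : p ^ n * Nat.card (G ⧸ K) = Nat.card G := by
    rw [← hK]
    exact K.card_mul_index
  have h5 := hs K h4
  refine Group.isSolvable_of_ker_le_range K.subtype (MulAction.toPermHom G (G ⧸ K)) ?_
  rw [← Subgroup.normalCore_eq_ker, Subgroup.range_subtype]
  exact K.normalCore_le

theorem o60_24 (G : Type) [Group G] [Finite G] (h : Nat.card G = 24) : Group.IsSolvable G := by
  refine o60_act G 2 3 Nat.prime_two (by rw [h]; norm_num) fun K hK => ?_
  rw [h] at hK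
  have h1 : Nat.card (G ⧸ K) = 3 := by omega
  refine o60_sq _ ?_
  rw [Nat.card_perm, h1]
  decide

theorem o60_12 (G : Type) [Group G] [Finite G] (h : Nat.card G = 12) : Group.IsSolvable G := by
  refine o60_act G 2 2 Nat.prime_two (by rw [h]; norm_num) fun K hK => ?_
  rw [h] at hK
  have h1 : Nat.card (G ⧸ K) = 3 := by omega
  refine o60_sq _ ?_
  rw [Nat.card_perm, h1]
  decide

theorem o60_20 (G : Type) [Group G] [Finite G] (h : Nat.card G = 20) : Group.IsSolvable G := by
  refine o60_act G 5 1 (by norm_num) (by rw [h]; norm_num) fun K hK => ?_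
  rw [h] at hK
  have h1 : Nat.card (G ⧸ K) = 4 := by omega
  refine o60_24 _ ?_
  rw [Nat.card_perm, h1]
  decide

theorem o60_4 (G : Type) [Group G] [Finite G] (h : Nat.card G = 4) : Group.IsSolvable G := by
  refine o60_act G 2 2 Nat.prime_two (by rw [h]; norm_num) fun K hK => ?_
  rw [h] at hK
  have h1 : Nat.card (G ⧸ K) = 1 := by omega
  refine o60_sq _ ?_
  rw [Nat.card_perm, h1]
  decide

theorem pf_O60 : T_O60 := by
  intro G _ _ h
  rcases h with ⟨h1, h2⟩ | h1
  · have h3 : Nat.card G ∈ Nat.divisors 60 := Nat.mem_divisors.2 ⟨h1, by norm_num⟩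
    have h4 : Nat.divisors 60 = {1, 2, 3, 4, 5, 6, 10, 12, 15, 20, 30, 60} := by decide
    rw [h4] at h3
    simp only [Finset.mem_insert, Finset.mem_singleton] at h3
    rcases h3 with h | h | h | h | h | h | h | h | h | h | h | h
    · exact o60_sq G (by rw [h]; decide)
    · exact o60_sq G (by rw [h]; decide)
    · exact o60_sq G (by rw [h]; decide)
    · exact o60_4 G h
    · exact o60_sq G (by rw [h]; decide)
    · exact o60_sq G (by rw [h]; decide)
    · exact o60_sq G (by rw [h]; decide)
    · exact o60_12 G h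
    · exact o60_sq G (by rw [h]; decide)
    · exact o60_20 G h
    · exact o60_sq G (dvd_of_eq h)
    · exact absurd h h2
  · exact o60_24 G h1

end Pool.Agent.H70.FIB
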